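import Pool.Agent.H.MP_1611f1_gt.TP.Defs
import Pool.Agent.H.MP_1611f1_gt.TW.Main
import Pool.Agent.H.MP_1611f1_gt.TW.SusF

/-!
The pieces of the theorem on plumbings.
-/

namespace Pool.Agent.H.MP_1611f1_gt.HF

open Topology Set Filter
open Pool.Agent.H.MP_1611f1_gt.BR.U (Ci)
open Pool.Agent.H.MP_1611f1_gt.G (Ended Linear MTorus Detected)
open Pool.Agent.H.MP_1611f1_gt.LG (Drilled Cylinder)

/-- The pieces of the main theorem, with the admissible covectors `(x j, y j)` at their ends `j`. In the first two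
cases the piece is the product `M₀ = S × S¹` minus the curves of a forest `P` in fibres; `S` has one end, and there
are `N ≥ 2` strips. The curve `k` is the core of the annulus `P.ν k` at an arbitrary time `t k`; the removed solid
torus is in the times between `t k - ε` and `t k + ε`, and curves over annuli which meet are at times whose
distance is larger than `4 ε`. The covectors at the new ends satisfy `x k ≠ 0`.
* `tree`: the covector at the end `j` of `M₀` satisfies `|x j| < (N - 1) |y j|`.
* `plumb` (for the forests of `TP.Plumb`): `y k ≠ 0` at all new ends, and the products `x j * y j` and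
  `x k * y k` have the same sign for at least one new end `k`.
* `walls`: `M₀` is a manifold with a taut foliation `F`, which is `{t = const}` in the part `VV` of a torus with
  the coordinates `(x₁, x₂, t)` (`TW.Box`), and is given by `x j * θ + y j * t = const` near the ends of `M₀`. The piece is
  `M₀` minus the circle `e` (`x₂ = t = 0`), finitely many circles `j ∈ C` (`x₁ = 0`, `x₂ = const ≠ 0`), and possibly
  leaf curves of `F` outside of this part (`TW.Curves`). The covectors satisfy
  `0 < |y e| < |x e|`, and `x j ≠ 0` for `j ∈ C`.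
* `fibred`: `M₀` is the mapping torus of a homeomorphism of a connected surface, which is the identity near a closed curve
  `δ`, minus the core `e` of an annulus which crosses `δ` once, circles over points of `δ`, and level curves, see
  `TW.Fibred`. The covectors satisfy `x j = 0` at the ends `j` of `M₀`, with `y j` of one sign, `0 < |y e| < |x e|`, and
  `x k ≠ 0` at all new ends.
* `fol`: a manifold with a taut foliation which is given by `x j * θ + y j * t = const` near its ends. -/
inductive Good {M : Type} [TopologicalSpace M] {J : Type} (T : Ended M J) (x y : J → ℝ) : Prop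
  | tree {S : Type} [TopologicalSpace S] [ConnectedSpace S] (old : J → Prop)
      [Unique {j // old j}] (hN : 2 ≤ Nat.card {j // ¬ old j})
      (P : TR.Forest S {j // old j} {j // ¬ old j})
      {M₀ : Type} [TopologicalSpace M₀] [T2Space M₀] (T₀ : Ended M₀ {j // old j})
      (Mt : MTorus P.E (Homeomorph.refl S) T₀) (t : {j // ¬ old j} → ℝ) (ε : ℝ) (hε : 0 < ε)
      (hε1 : 4 * ε < 1)
      (sep : ∀ e f, e ≠ f → (∃ z w, P.ν e z = P.ν f w) → ∀ m : ℤ, 4 * ε < |t e - t f + m|)
      (D : Drilled T₀ (fun k z => Mt.p (P.ν k (z.1, z.2.1), t k + ε * (z.2.2 + 4))) T)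
      (hold : ∀ j, old j → |x j| < (Nat.card {j // ¬ old j} - 1) * |y j|)
      (hnew : ∀ k, ¬ old k → x k ≠ 0) : Good T x y
  | plumb {S : Type} [TopologicalSpace S] [ConnectedSpace S] (old : J → Prop)
      [Unique {j // old j}] (hN : 2 ≤ Nat.card {j // ¬ old j})
      (P : TP.Plumb S {j // old j} {j // ¬ old j})
      {M₀ : Type} [TopologicalSpace M₀] [T2Space M₀] (T₀ : Ended M₀ {j // old j})
      (Mt : MTorus P.E (Homeomorph.refl S) T₀) (t : {j // ¬ old j} → ℝ) (ε : ℝ) (hε : 0 < ε)
      (hε1 : 4 * ε < 1)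
      (sep : ∀ e f, e ≠ f → (∃ z w, P.ν e z = P.ν f w) → ∀ m : ℤ, 4 * ε < |t e - t f + m|)
      (D : Drilled T₀ (fun k z => Mt.p (P.ν k (z.1, z.2.1), t k + ε * (z.2.2 + 4))) T)
      (hnew : ∀ k, ¬ old k → x k ≠ 0) (hnew' : ∀ k, ¬ old k → y k ≠ 0)
      (hk : ∃ j k, old j ∧ ¬ old k ∧ 0 < x j * y j * (x k * y k)) : Good T x y
  | walls {M₀ : Type} [TopologicalSpace M₀] [T2Space M₀] (F : Foliation M₀) (hF : F.Taut)
      (N : Ci × Ci × Ci → M₀) (B : TW.Box F N) (old : J → Prop) [Finite {j // ¬ old j}]
      (T₀ : Ended M₀ {j // old j}) (hlin : Linear T₀ F (fun j => x j) (fun j => y j))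
      (Nb : {j // ¬ old j} → Cylinder → M₀) (e : {j // ¬ old j}) (C : Set {j // ¬ old j})
      (Q : TW.Curves F N T₀ Nb e C x) (D : Drilled T₀ Nb T) (hC : ∀ j ∈ C, x j.1 ≠ 0)
      (hy : y e.1 ≠ 0) (hxy : |y e.1| < |x e.1|) : Good T x y
  | fibred {S : Type} [TopologicalSpace S] [ConnectedSpace S] (old : J → Prop) [Finite {j // ¬ old j}]
      (P : TW.Fibred S {j // old j} {j // ¬ old j}) {M₀ : Type} [TopologicalSpace M₀] [T2Space M₀]
      (T₀ : Ended M₀ {j // old j}) (Mt : MTorus P.E P.ψ T₀) (D : Drilled T₀ (P.nbh Mt) T)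
      (ε : ℝ) (hε : ε = 1 ∨ ε = -1) (hold : ∀ j, old j → x j = 0 ∧ 0 < ε * y j)
      (hnew : ∀ k, ¬ old k → x k ≠ 0) (hy : y P.e.1 ≠ 0) (hxy : |y P.e.1| < |x P.e.1|) : Good T x y
  | fol [T2Space M] (h : Detected T x y) : Good T x y

end Pool.Agent.H.MP_1611f1_gt.HF
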