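import Pool.Agent.H.MP_1611f1_gt.HF.Defs
import Pool.Agent.H.MP_1611f1_gt.TP.Red
import Pool.Agent.H.MP_1611f1_gt.TR.Main
import Pool.Agent.H.MP_1611f1_gt.G.Main

/-!
The main theorem on plumbings.
-/

namespace Pool.Agent.H.MP_1611f1_gt.HF

open Topology Set Filter
open Pool.Agent.H.MP_1611f1_gt.G (Ended Pattern Union Detected glue_taut)

theorem Good.detected {M : Type} [TopologicalSpace M] {J : Type} {T : Ended M J} {x y : J → ℝ}
    (h : Good T x y) : Detected T x y := by
  cases h with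
  | tree old hN P T₀ Mt t ε hε hε1 sep D hold hnew =>
    exact TR.tree_detected hN P Mt t hε hε1 sep D hold hnew
  | plumb old hN P T₀ Mt t ε hε hε1 sep D hnew hnew' hk =>
    exact TP.plumb_detected hN P Mt t hε hε1 sep D hnew hnew' hk
  | walls F hF N B old T₀ hlin Nb e C Q D hC hy hxy => exact TW.walls B hF hlin Q D hC hy hxy
  | fibred old P T₀ Mt D ε hε hold hnew hy hxy =>
    exact TW.fibred_detected P Mt D ε hε hold hnew hy hxy
  | fol h => exact h

/-- **Main theorem.** -/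
theorem main {V : Type} {M : V → Type} [∀ v, TopologicalSpace (M v)] {J : V → Type}
    (T : ∀ v, Ended (M v) (J v)) (G : Pattern (Σ v, J v)) {Y : Type} [TopologicalSpace Y]
    (U : Union T G Y) (x y : (Σ v, J v) → ℝ)
    (hgood : ∀ v, Good (T v) (fun j => x ⟨v, j⟩) (fun j => y ⟨v, j⟩))
    (hglue : ∀ e, G.τ e ≠ e → x e = G.al e * x (G.τ e) + G.ga e * y (G.τ e) ∧
      y e = G.be e * x (G.τ e) + G.de e * y (G.τ e))
    (hfill : ∀ e, G.τ e = e → ∃ c : ℝ, c ≠ 0 ∧ x e = c * G.ga e ∧ y e = c * G.de e) :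
    ∃ F : Foliation Y, F.Taut :=
  glue_taut T G U x y (fun v => (hgood v).detected) hglue hfill

end Pool.Agent.H.MP_1611f1_gt.HF
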